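import Pool.Agent.TH125.Tor.Main

/-!
# Torsion in one-parameter families: the main argument
-/

set_option autoImplicit false

namespace Pool.Agent.TH125.Tor

theorem exists_index {l : ℕ → ℕ} (hp : ∀ i, (l i).Prime) (hl : ∀ i, 2 ^ i ≤ l i) :
    ∃ f : ℕ → ℕ, (∀ T : ℕ, 1 ≤ T → 2 * T ^ 2 < ∏ i ∈ Finset.range (f T), l i) ∧
      ∀ (a : ℕ) (ε : ℝ), 0 < ε → ∃ C : ℝ, 0 < C ∧ ∀ T : ℕ, 1 ≤ T →
        (2 : ℝ) ^ (a * f T) ≤ C * (T : ℝ) ^ ε := by
  classical
  have hex : ∀ T : ℕ, ∃ k : ℕ, 2 * T ^ 2 < ∏ i ∈ Finset.range k, l i := by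
    intro T
    refine ⟨2 * T ^ 2, ?_⟩
    have h1 : 2 ^ (2 * T ^ 2) ≤ ∏ i ∈ Finset.range (2 * T ^ 2), l i := by
      calc 2 ^ (2 * T ^ 2) = ∏ _i ∈ Finset.range (2 * T ^ 2), 2 := by simp
        _ ≤ _ := Finset.prod_le_prod' fun i _ => (hp i).two_le
    exact lt_of_lt_of_le Nat.lt_two_pow_self h1
  refine ⟨fun T => Nat.find (hex T), fun T _ => Nat.find_spec (hex T), fun a ε hε => ?_⟩
  obtain ⟨C, hC, h⟩ := exp_le hl a (δ := ε / 2) (by positivity)
  refine ⟨2 ^ a * C * 2 ^ (ε / 2), by positivity, fun T hT => ?_⟩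
  set k := Nat.find (hex T) with hk
  have hT' : (1 : ℝ) ≤ T := by exact_mod_cast hT
  have hk0 : k ≠ 0 := by
    intro h0
    have := Nat.find_spec (hex T)
    rw [← hk, h0] at this
    simp at this
    nlinarith
  obtain ⟨m, hm⟩ := Nat.exists_eq_succ_of_ne_zero hk0
  have h1 : ¬ (2 * T ^ 2 < ∏ i ∈ Finset.range m, l i) := Nat.find_min (hex T) (by omega)
  have h2 : ((∏ i ∈ Finset.range m, l i : ℕ) : ℝ) ≤ 2 * (T : ℝ) ^ 2 := by
    exact_mod_cast not_lt.1 h1
  have h3 : ((∏ i ∈ Finset.range m, l i : ℕ) : ℝ) ^ (ε / 2) ≤ 2 ^ (ε / 2) * (T : ℝ) ^ ε := by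
    refine (Real.rpow_le_rpow (by positivity) h2 (by positivity)).trans (le_of_eq ?_)
    rw [Real.mul_rpow (by norm_num) (by positivity), ← Real.rpow_natCast, ← Real.rpow_mul
      (by positivity)]
    congr 2
    push_cast
    ring
  have h4 : (2 : ℝ) ^ (a * k) = 2 ^ a * 2 ^ (a * m) := by
    rw [hm, ← pow_add]
    congr 1
    simp only [Nat.succ_eq_add_one]
    ring
  calc (2 : ℝ) ^ (a * k) = 2 ^ a * 2 ^ (a * m) := h4
    _ ≤ 2 ^ a * (C * ((∏ i ∈ Finset.range m, l i : ℕ) : ℝ) ^ (ε / 2)) :=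
        mul_le_mul_of_nonneg_left (h m) (by positivity)
    _ ≤ 2 ^ a * (C * (2 ^ (ε / 2) * (T : ℝ) ^ ε)) := by
        refine mul_le_mul_of_nonneg_left ?_ (by positivity)
        exact mul_le_mul_of_nonneg_left h3 hC.le
    _ = _ := by ring

theorem le_of_primes {B : ℕ → ℕ} {n M : ℕ} (hn : n ≠ 0)
    (hB : ∀ p : ℕ, p.Prime → ¬ p ^ B p ∣ n) (hM : ∀ p : ℕ, p.Prime → M ≤ p → ¬ p ∣ n) :
    n ≤ ∏ p ∈ (Finset.range M).filter Nat.Prime, p ^ B p := by
  classical
  have h1 : n = ∏ p ∈ n.primeFactors, p ^ n.factorization p := by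
    conv_lhs => rw [← Nat.prod_factorization_pow_eq_self hn]
    rfl
  rw [h1]
  calc ∏ p ∈ n.primeFactors, p ^ n.factorization p ≤ ∏ p ∈ n.primeFactors, p ^ B p := by
        refine Finset.prod_le_prod' fun p hp => ?_
        have hpp := Nat.prime_of_mem_primeFactors hp
        refine Nat.pow_le_pow_right hpp.pos ?_
        by_contra hlt
        exact hB p hpp ((Nat.pow_dvd_pow p (not_le.1 hlt).le).trans (Nat.ordProj_dvd n p))
    _ ≤ _ := by
        refine Finset.prod_le_prod_of_subset_of_one_le' ?_ ?_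
        · intro p hp
          have hpp := Nat.prime_of_mem_primeFactors hp
          rw [Finset.mem_filter, Finset.mem_range]
          refine ⟨?_, hpp⟩
          by_contra hlt
          exact hM p hpp (not_lt.1 hlt) (Nat.dvd_of_mem_primeFactors hp)
        · intro p hp _
          exact Nat.one_le_pow _ _ (Finset.mem_filter.1 hp).2.pos

/-- The main estimate: `N₀` and `C` are the constants of the counting hypothesis for `ε / 2`, and
for the primes `N` between `N₁` and `N₀` there are only finitely many parameters. -/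
theorem main (U : Set ℚ) (tors : ℚ → ℕ) (htors : ∀ t ∈ U, tors t ≠ 0) (s d c : ℕ)
    (R : (q : ℕ) → Finset (Option (ZMod q)))
    (hR : ∀ q : ℕ, q.Prime → s < q → (R q).card ≤ d)
    (hweil : ∀ t ∈ U, ∀ q : ℕ, q.Prime → s < q → red q t ∉ R q →
      ∀ N : ℕ, N.Prime → N ≠ q → N ∣ tors t → N ≤ c * q ^ c)
    {ε : ℝ} (hε : 0 < ε) {N₀ C : ℕ}
    (hC : ∀ N : ℕ, N.Prime → N₀ ≤ N → ∀ T : ℕ, 1 ≤ T →
      AtMost (fun t => t ∈ U ∧ N ∣ tors t ∧ ht t ≤ T) (C * (N : ℝ) ^ C * (T : ℝ) ^ (ε / 2)))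
    {N₁ : ℕ} (hN₁ : ∀ N : ℕ, N.Prime → N₁ ≤ N → N < N₀ → {t : ℚ | t ∈ U ∧ N ∣ tors t}.Finite)
    {B : ℕ → ℕ} (hB : ∀ p : ℕ, p.Prime → ∀ t ∈ U, ¬ p ^ B p ∣ tors t) :
    ∃ C : ℝ, ∀ T : ℕ, 1 ≤ T → AtMost (fun t => t ∈ U ∧
      ∏ p ∈ (Finset.range N₁).filter Nat.Prime, p ^ B p < tors t ∧ ht t ≤ T)
        (C * (T : ℝ) ^ ε) := by
  classical
  obtain ⟨l, hlp, hinj, hls, hl2, hlle⟩ := exists_primes s
  obtain ⟨f, hf1, hf2⟩ := exists_index hlp hl2
  obtain ⟨C1, hC1, h1⟩ := hf2 d ε hε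
  obtain ⟨C2, hC2, h2⟩ := hf2 ((c + 1) * (C + 1)) (ε / 2) (by positivity)
  -- the finite exceptional set
  have hF : (⋃ N ∈ (Finset.range N₀).filter (fun N => N.Prime ∧ N₁ ≤ N),
      {t : ℚ | t ∈ U ∧ N ∣ tors t}).Finite := by
    refine Set.Finite.biUnion (Finset.finite_toSet _) fun N hN => ?_
    have := Finset.mem_filter.1 (Finset.mem_coe.1 hN)
    exact hN₁ N this.2.1 this.2.2 (Finset.mem_range.1 this.1)
  obtain ⟨F, hFeq⟩ := hF.exists_finset_coe
  set K : ℝ := (((c : ℝ) + 2) * 2 ^ (s * (c + 1))) ^ (C + 1) with hK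
  have hKpos : 0 < K := by positivity
  refine ⟨F.card + C1 + C * K * C2, fun T hT A hA => ?_⟩
  have hT' : (1 : ℝ) ≤ T := by exact_mod_cast hT
  set k := f T with hk
  set Q : ℕ := (c + 1) * 2 ^ ((s + k) * (c + 1)) with hQ
  set A1 := A.filter (fun t => t ∈ F) with hA1
  set A3 := A.filter (fun t => ∀ i < k, red (l i) t ∈ R (l i)) with hA3
  set A2 : ℕ → Finset ℚ := fun N => A.filter (fun t => N.Prime ∧ N₀ ≤ N ∧ N ∣ tors t) with hA2
  have hcover : A ⊆ A1 ∪ A3 ∪ (Finset.range (Q + 1)).biUnion A2 := by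
    intro t ht'
    obtain ⟨hU, hBt, hht⟩ := hA t ht'
    have hex : ∃ N : ℕ, N.Prime ∧ N₁ ≤ N ∧ N ∣ tors t := by
      by_contra hcon
      push Not at hcon
      refine absurd (le_of_primes (htors t hU)
        (fun p hp => hB p hp t hU) (M := N₁) (fun p hp h => hcon p hp h)) (not_le.2 hBt)
    obtain ⟨N, hNp, hN1, hNd⟩ := hex
    rw [Finset.mem_union, Finset.mem_union]
    by_cases hN0 : N < N₀
    · left; left
      rw [hA1, Finset.mem_filter]
      refine ⟨ht', ?_⟩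
      have : t ∈ (F : Set ℚ) := by
        rw [hFeq]
        simp only [Set.mem_iUnion]
        refine ⟨N, ?_, hU, hNd⟩
        rw [Finset.mem_filter, Finset.mem_range]
        exact ⟨hN0, hNp, hN1⟩
      exact Finset.mem_coe.1 this
    · by_cases hbad : ∀ i < k, red (l i) t ∈ R (l i)
      · left; right
        rw [hA3, Finset.mem_filter]
        exact ⟨ht', hbad⟩
      · right
        push Not at hbad
        obtain ⟨i, hi, hgood⟩ := hbad
        rw [Finset.mem_biUnion]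
        refine ⟨N, ?_, ?_⟩
        · rw [Finset.mem_range]
          have h5 : l i ≤ 2 ^ (s + k) :=
            (hlle i).trans (Nat.pow_le_pow_right (by norm_num) (by omega))
          have h6 : 2 ^ (s + k) ≤ Q := by
            rw [hQ, pow_mul]
            calc 2 ^ (s + k) = 1 * (2 ^ (s + k)) ^ 1 := by ring
              _ ≤ _ := Nat.mul_le_mul (by omega)
                  (Nat.pow_le_pow_right (by positivity) (by omega))
          by_cases hNl : N = l i
          · rw [hNl]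
            omega
          · have h7 := hweil t hU (l i) (hlp i) (hls i) hgood N hNp hNl hNd
            have h8 : c * l i ^ c ≤ Q := by
              rw [hQ, pow_mul]
              refine Nat.mul_le_mul (by omega) ?_
              calc l i ^ c ≤ (2 ^ (s + k)) ^ c := Nat.pow_le_pow_left h5 c
                _ ≤ _ := Nat.pow_le_pow_right (by positivity) (by omega)
            omega
        · rw [hA2]
          simp only [Finset.mem_filter]
          exact ⟨ht', hNp, not_lt.1 hN0, hNd⟩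
  have hc1 : (A1.card : ℝ) ≤ F.card := by
    have : A1 ⊆ F := fun t h => (Finset.mem_filter.1 h).2
    exact_mod_cast Finset.card_le_card this
  have hc3 : (A3.card : ℝ) ≤ C1 * (T : ℝ) ^ ε := by
    have h3 : (A3.card : ℝ) ≤ (d : ℝ) ^ k := by
      refine card_le_of_red hlp hinj (hf1 T hT) R (fun i => hR _ (hlp i) (hls i)) A3 ?_
      intro t h
      have := Finset.mem_filter.1 h
      exact ⟨(hA t this.1).2.2, this.2⟩
    refine h3.trans (le_trans ?_ (h1 T hT))
    rw [pow_mul]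
    refine pow_le_pow_left₀ (by positivity) ?_ k
    exact_mod_cast (Nat.lt_two_pow_self (n := d)).le
  have hc2 : (((Finset.range (Q + 1)).biUnion A2).card : ℝ) ≤ C * K * C2 * (T : ℝ) ^ ε := by
    have h3 : ∀ N ∈ Finset.range (Q + 1), ((A2 N).card : ℝ) ≤
        C * (Q : ℝ) ^ C * (T : ℝ) ^ (ε / 2) := by
      intro N hN
      by_cases hN' : N.Prime ∧ N₀ ≤ N
      · have h4 := hC N hN'.1 hN'.2 T hT (A2 N) (by
          intro t h
          obtain ⟨h5, -, -, h6⟩ := Finset.mem_filter.1 h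
          exact ⟨(hA t h5).1, h6, (hA t h5).2.2⟩)
        refine h4.trans ?_
        refine mul_le_mul_of_nonneg_right ?_ (by positivity)
        refine mul_le_mul_of_nonneg_left ?_ (by positivity)
        refine pow_le_pow_left₀ (by positivity) ?_ C
        have := Finset.mem_range.1 hN
        exact_mod_cast Nat.lt_succ_iff.1 this
      · have : A2 N = ∅ := by
          rw [hA2]
          refine Finset.filter_eq_empty_iff.2 fun t _ h => hN' ⟨h.1, h.2.1⟩
        rw [this]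
        simp only [Finset.card_empty, Nat.cast_zero]
        positivity
    have h4 : (((Finset.range (Q + 1)).biUnion A2).card : ℝ) ≤
        ∑ N ∈ Finset.range (Q + 1), ((A2 N).card : ℝ) := by
      exact_mod_cast Finset.card_biUnion_le
    have h5 : (((Finset.range (Q + 1)).biUnion A2).card : ℝ) ≤
        (Q + 1) * (C * (Q : ℝ) ^ C * (T : ℝ) ^ (ε / 2)) := by
      refine h4.trans ((Finset.sum_le_sum h3).trans (le_of_eq ?_))
      rw [Finset.sum_const, Finset.card_range, nsmul_eq_mul]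
      push_cast
      ring
    have h6 : ((Q : ℝ) + 1) ≤ ((c : ℝ) + 2) * 2 ^ ((s + k) * (c + 1)) := by
      rw [hQ]
      push_cast
      have : (1 : ℝ) ≤ 2 ^ ((s + k) * (c + 1)) := one_le_pow₀ (by norm_num)
      nlinarith
    have h7 : ((Q : ℝ) + 1) ^ (C + 1) ≤ K * 2 ^ ((c + 1) * (C + 1) * k) := by
      refine (pow_le_pow_left₀ (by positivity) h6 _).trans (le_of_eq ?_)
      have h8 : (s + k) * (c + 1) * (C + 1) = s * (c + 1) * (C + 1) + (c + 1) * (C + 1) * k := by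
        ring
      rw [hK, mul_pow, mul_pow, ← pow_mul, ← pow_mul, h8, pow_add]
      ring
    have h8 : ((Q : ℝ) + 1) * (C * (Q : ℝ) ^ C) ≤ C * ((Q : ℝ) + 1) ^ (C + 1) := by
      have : (Q : ℝ) ^ C ≤ ((Q : ℝ) + 1) ^ C := pow_le_pow_left₀ (by positivity) (by linarith) C
      calc ((Q : ℝ) + 1) * (C * (Q : ℝ) ^ C) = C * ((Q : ℝ) ^ C * ((Q : ℝ) + 1)) := by ring
        _ ≤ C * (((Q : ℝ) + 1) ^ C * ((Q : ℝ) + 1)) := by gcongr
        _ = _ := by rw [pow_succ]
    calc (((Finset.range (Q + 1)).biUnion A2).card : ℝ)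
        ≤ (Q + 1) * (C * (Q : ℝ) ^ C * (T : ℝ) ^ (ε / 2)) := h5
      _ = (((Q : ℝ) + 1) * (C * (Q : ℝ) ^ C)) * (T : ℝ) ^ (ε / 2) := by ring
      _ ≤ (C * ((Q : ℝ) + 1) ^ (C + 1)) * (T : ℝ) ^ (ε / 2) := by gcongr
      _ ≤ (C * (K * 2 ^ ((c + 1) * (C + 1) * k))) * (T : ℝ) ^ (ε / 2) := by gcongr
      _ ≤ (C * (K * (C2 * (T : ℝ) ^ (ε / 2)))) * (T : ℝ) ^ (ε / 2) := by
          gcongr
          exact h2 T hT
      _ = C * K * C2 * ((T : ℝ) ^ (ε / 2) * (T : ℝ) ^ (ε / 2)) := by ring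
      _ = C * K * C2 * (T : ℝ) ^ ε := by
          rw [← Real.rpow_add (by positivity)]
          congr 2
          ring
  have hTε : (1 : ℝ) ≤ (T : ℝ) ^ ε := Real.one_le_rpow hT' hε.le
  have hcard : (A.card : ℝ) ≤ A1.card + A3.card +
      (((Finset.range (Q + 1)).biUnion A2).card : ℝ) := by
    have h3 := Finset.card_le_card hcover
    have h4 := Finset.card_union_le (A1 ∪ A3) ((Finset.range (Q + 1)).biUnion A2)
    have h5 := Finset.card_union_le A1 A3
    have : A.card ≤ A1.card + A3.card + ((Finset.range (Q + 1)).biUnion A2).card := by omega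
    exact_mod_cast this
  have hF' : (F.card : ℝ) ≤ F.card * (T : ℝ) ^ ε := by
    have : (0 : ℝ) ≤ F.card := by positivity
    nlinarith
  calc (A.card : ℝ) ≤ A1.card + A3.card + (((Finset.range (Q + 1)).biUnion A2).card : ℝ) := hcard
    _ ≤ F.card * (T : ℝ) ^ ε + C1 * (T : ℝ) ^ ε + C * K * C2 * (T : ℝ) ^ ε := by linarith
    _ = _ := by ring

end Pool.Agent.TH125.Tor
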