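import Pool.Agent.TH125.Tor.Union

/-!
# Congruences modulo divisors, and divisors of moderate size
-/

set_option autoImplicit false

namespace Pool.Agent.TH125.Tor

theorem nsmul_of_dvd {A : Type*} [AddCommGroup A] {m n : ℕ} (hmn : m ∣ n) {P : A}
    (hP : m • P = 0) : n • P = 0 := by
  obtain ⟨k, rfl⟩ := hmn
  rw [mul_comm, mul_smul, hP, smul_zero]

/-- A map which is additive and bijective on the `n`-torsion is additive and bijective on the
`m`-torsion for every divisor `m` of `n`. -/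
theorem bijOn_of_dvd {A B : Type*} [AddCommGroup A] [AddCommGroup B] {m n : ℕ} (hmn : m ∣ n)
    (f : A → B) (hadd : ∀ P Q, n • P = 0 → n • Q = 0 → f (P + Q) = f P + f Q)
    (hbij : Set.BijOn f {P | n • P = 0} {Q | n • Q = 0}) :
    Set.BijOn f {P | m • P = 0} {Q | m • Q = 0} := by
  have h0 : f 0 = 0 := by
    have h := hadd 0 0 (by simp) (by simp)
    rw [add_zero] at h
    simpa using h
  have hm : ∀ (A : Type _) [AddCommGroup A] (P : A), m • P = 0 → n • P = 0 := by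
    intro A _ P hP
    obtain ⟨k, rfl⟩ := hmn
    rw [mul_comm, mul_smul, hP, smul_zero]
  have hmB : ∀ Q : B, m • Q = 0 → n • Q = 0 := by
    intro Q hQ
    obtain ⟨k, rfl⟩ := hmn
    rw [mul_comm, mul_smul, hQ, smul_zero]
  have hk : ∀ (k : ℕ) (P : A), n • P = 0 → f (k • P) = k • f P := by
    intro k P hP
    induction k with
    | zero => simp [h0]
    | succ k ih =>
      rw [succ_nsmul, succ_nsmul, hadd _ _ _ hP, ih]
      rw [smul_comm, hP, smul_zero]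
  refine ⟨?_, ?_, ?_⟩
  · intro P hP
    have hP' : m • P = 0 := hP
    change m • f P = 0
    rw [← hk m P (hm A P hP'), hP', h0]
  · exact hbij.injOn.mono fun P hP => hm A P hP
  · intro Q hQ
    have hQ' : m • Q = 0 := hQ
    obtain ⟨P, hP, rfl⟩ := hbij.surjOn (hmB Q hQ')
    refine ⟨P, ?_, rfl⟩
    have hP' : n • P = 0 := hP
    change m • P = 0
    refine hbij.injOn ?_ ?_ ?_
    · change n • (m • P) = 0
      rw [smul_comm, hP', smul_zero]
    · change n • (0 : A) = 0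
      simp
    · rw [hk m P hP', hQ', h0]

/-- Every integer `n ≥ 7` has a divisor `m ≥ 7` which is a prime number or less than `35`. -/
theorem exists_divisor {n : ℕ} (hn : 7 ≤ n) : ∃ m : ℕ, m ∣ n ∧ 7 ≤ m ∧ (m.Prime ∨ m < 35) := by
  classical
  have hex : ∃ m : ℕ, 7 ≤ m ∧ m ∣ n := ⟨n, hn, dvd_rfl⟩
  obtain ⟨h7, hd⟩ := Nat.find_spec hex
  refine ⟨Nat.find hex, hd, h7, ?_⟩
  set m := Nat.find hex with hm
  by_cases hq : ∃ q : ℕ, q.Prime ∧ q ∣ m ∧ 7 ≤ q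
  · obtain ⟨q, hqp, hqm, hq7⟩ := hq
    left
    have h1 : m ≤ q := Nat.find_min' hex ⟨hq7, hqm.trans hd⟩
    have h2 : q ≤ m := Nat.le_of_dvd (by omega) hqm
    have : m = q := le_antisymm h1 h2
    rw [this]
    exact hqp
  · right
    push Not at hq
    obtain ⟨q, hqp, hqm⟩ := Nat.exists_prime_and_dvd (n := m) (by omega)
    have hq7 := hq q hqp hqm
    have hq5 : q ≤ 5 := by
      by_contra h
      have : q = 6 := by omega
      rw [this] at hqp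
      exact absurd hqp (by norm_num)
    obtain ⟨k, hk⟩ := hqm
    have hk7 : k < 7 := by
      by_contra h
      have h1 : m ≤ k := Nat.find_min' hex ⟨not_lt.1 h, (Dvd.intro_left q hk.symm).trans hd⟩
      have h2 : 2 ≤ q := hqp.two_le
      nlinarith
    rw [hk]
    nlinarith

/-- The union bound for primes `p ≥ 7` extends to all integers `n ≥ 7`. -/
theorem union_bound_all {P : Type*} (H : P → ℝ) (h1 : ∀ x, 1 ≤ H x)
    (hN : ∀ T : ℝ, {x : P | H x ≤ T}.Finite) (Bad : P → ℕ → Prop)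
    (hdvd : ∀ x, ∀ m n : ℕ, m ∣ n → Bad x n → Bad x m)
    (hlarge : ∃ c : ℕ, ∀ x, ∀ p : ℕ, p.Prime → Bad x p → (p : ℝ) ≤ c * (1 + Real.log (H x)) ^ c)
    (hcount : ∀ ε : ℝ, 0 < ε → ∃ p₀ C : ℕ, ∀ p : ℕ, p.Prime → p₀ ≤ p → ∀ T : ℝ, 1 ≤ T →
      ({x : P | H x ≤ T ∧ Bad x p}.ncard : ℝ) ≤ C * (p : ℝ) ^ C * T ^ ε)
    (hfin : ∀ m : ℕ, 7 ≤ m → {x : P | Bad x m}.Finite) :
    ∀ ε : ℝ, 0 < ε → ∃ C : ℝ, ∀ T : ℝ, 1 ≤ T →
      ({x : P | H x ≤ T ∧ ∃ n : ℕ, 7 ≤ n ∧ Bad x n}.ncard : ℝ) ≤ C * T ^ ε := by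
  classical
  intro ε hε
  obtain ⟨C, hC⟩ := union_bound H h1 hN Bad 7 hlarge hcount (fun p _ h7 => hfin p h7) ε hε
  have hF : (⋃ m ∈ Finset.Ico 7 35, {x : P | Bad x m}).Finite :=
    Set.Finite.biUnion (Finset.finite_toSet _) fun m hm => hfin m
      (Finset.mem_Ico.1 (Finset.mem_coe.1 hm)).1
  set F := ⋃ m ∈ Finset.Ico 7 35, {x : P | Bad x m} with hFd
  refine ⟨C + F.ncard, fun T hT => ?_⟩
  have hcover : {x : P | H x ≤ T ∧ ∃ n : ℕ, 7 ≤ n ∧ Bad x n} ⊆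
      {x : P | H x ≤ T ∧ ∃ p : ℕ, p.Prime ∧ 7 ≤ p ∧ Bad x p} ∪ F := by
    rintro x ⟨hxT, n, hn, hbad⟩
    obtain ⟨m, hmn, hm7, hm⟩ := exists_divisor hn
    have hbm := hdvd x m n hmn hbad
    rcases hm with hmp | hm35
    · exact Or.inl ⟨hxT, m, hmp, hm7, hbm⟩
    · right
      simp only [hFd, Set.mem_iUnion]
      exact ⟨m, Finset.mem_Ico.2 ⟨hm7, hm35⟩, hbm⟩
  have hfinU : {x : P | H x ≤ T ∧ ∃ p : ℕ, p.Prime ∧ 7 ≤ p ∧ Bad x p}.Finite :=
    (hN T).subset fun x hx => hx.1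
  have h2 : ({x : P | H x ≤ T ∧ ∃ n : ℕ, 7 ≤ n ∧ Bad x n}.ncard : ℝ) ≤
      ({x : P | H x ≤ T ∧ ∃ p : ℕ, p.Prime ∧ 7 ≤ p ∧ Bad x p}.ncard : ℝ) + F.ncard := by
    exact_mod_cast (Set.ncard_le_ncard hcover (hfinU.union hF)).trans (Set.ncard_union_le _ _)
  have hTε : (1 : ℝ) ≤ T ^ ε := Real.one_le_rpow hT hε.le
  have h3 : (F.ncard : ℝ) ≤ F.ncard * T ^ ε := by
    have : (0 : ℝ) ≤ F.ncard := by positivity
    nlinarith
  calc _ ≤ C * T ^ ε + F.ncard * T ^ ε := by linarith [hC T hT]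
    _ = _ := by ring

end Pool.Agent.TH125.Tor
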