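import Mathlib

/-!
# A prime-counting argument on the projective line over `ℚ`

Rational numbers `t` of height at most `T` whose reduction modulo each of many primes lies in a set
of at most `d` points: there are at most `T ^ o(1)` of them.
-/

set_option autoImplicit false

namespace Pool.Agent.TH125.Tor

/-- The height `max (|u|, |v|)` of a rational number `u / v` in lowest terms. -/
def ht (t : ℚ) : ℕ := max t.num.natAbs t.den

/-- The reduction modulo a prime `l` of a rational number, a point of the projective line over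
`ℤ / l` (`none` is the point at infinity). -/
def red (l : ℕ) (t : ℚ) : Option (ZMod l) :=
  if (t.den : ZMod l) = 0 then none else some ((t.num : ZMod l) * (t.den : ZMod l)⁻¹)

/-- At most `x` rational numbers have the property `P`. -/
def AtMost (P : ℚ → Prop) (x : ℝ) : Prop :=
  ∀ A : Finset ℚ, (∀ t ∈ A, P t) → (A.card : ℝ) ≤ x

/-- For every `ε > 0`, at most `C_ε T ^ ε` rational numbers of height at most `T` have the
property `P`. -/
def Sparse (P : ℚ → Prop) : Prop :=
  ∀ ε : ℝ, 0 < ε → ∃ C : ℝ, ∀ T : ℕ, 1 ≤ T → AtMost (fun t => P t ∧ ht t ≤ T) (C * (T : ℝ) ^ ε)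

theorem dvd_cross {l : ℕ} (hl : l.Prime) {t t' : ℚ} (h : red l t = red l t') :
    (l : ℤ) ∣ t.num * t'.den - t'.num * t.den := by
  have := Fact.mk hl
  rw [← ZMod.intCast_zmod_eq_zero_iff_dvd]
  push_cast
  unfold red at h
  by_cases h1 : (t.den : ZMod l) = 0
  · by_cases h2 : (t'.den : ZMod l) = 0
    · simp [h1, h2]
    · simp [h1, h2] at h
  · by_cases h2 : (t'.den : ZMod l) = 0
    · simp [h1, h2] at h
    · simp only [h1, h2, if_false, Option.some.injEq] at h
      field_simp at h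
      rw [sub_eq_zero]
      linear_combination h

theorem cross_bound {t t' : ℚ} {T : ℕ} (h : ht t ≤ T) (h' : ht t' ≤ T) :
    |t.num * t'.den - t'.num * t.den| ≤ 2 * (T : ℤ) ^ 2 := by
  have h1 : |t.num| ≤ T := by
    have := le_trans (le_max_left _ _) h
    rw [Int.abs_eq_natAbs]
    exact_mod_cast this
  have h2 : (t.den : ℤ) ≤ T := by
    have := le_trans (le_max_right _ _) h
    omega
  have h3 : |t'.num| ≤ T := by
    have := le_trans (le_max_left _ _) h'
    rw [Int.abs_eq_natAbs]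
    exact_mod_cast this
  have h4 : (t'.den : ℤ) ≤ T := by
    have := le_trans (le_max_right _ _) h'
    omega
  have h5 : |t.num * t'.den| ≤ T * T := by
    rw [abs_mul, abs_of_nonneg (by positivity : (0 : ℤ) ≤ (t'.den : ℤ))]
    exact mul_le_mul h1 h4 (by positivity) (by positivity)
  have h6 : |t'.num * t.den| ≤ T * T := by
    rw [abs_mul, abs_of_nonneg (by positivity : (0 : ℤ) ≤ (t.den : ℤ))]
    exact mul_le_mul h3 h2 (by positivity) (by positivity)
  have := abs_sub (t.num * t'.den) (t'.num * t.den)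
  nlinarith

theorem eq_of_red {k : ℕ} {l : ℕ → ℕ} (hl : ∀ i, (l i).Prime) (hinj : Function.Injective l)
    {T : ℕ} (hT : 2 * T ^ 2 < ∏ i ∈ Finset.range k, l i) {t t' : ℚ} (h : ht t ≤ T)
    (h' : ht t' ≤ T) (hr : ∀ i < k, red (l i) t = red (l i) t') : t = t' := by
  rw [Rat.eq_iff_mul_eq_mul]
  by_contra hne
  have h0 : (∏ i ∈ Finset.range k, (l i : ℤ)) ∣ t.num * t'.den - t'.num * t.den := by
    refine Finset.prod_dvd_of_coprime (fun i _ j _ hij => ?_) fun i hi => ?_
    · exact Nat.isCoprime_iff_coprime.2 ((Nat.coprime_primes (hl i) (hl j)).2 (hinj.ne hij))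
    · exact dvd_cross (hl i) (hr i (Finset.mem_range.1 hi))
  have h1 : (∏ i ∈ Finset.range k, l i) ∣ (t.num * t'.den - t'.num * t.den).natAbs := by
    rw [← Int.natCast_dvd]
    push_cast
    exact h0
  have h2 : 0 < (t.num * t'.den - t'.num * t.den).natAbs := by
    rw [Int.natAbs_pos]
    exact sub_ne_zero.2 hne
  have h3 := Nat.le_of_dvd h2 h1
  have h4 := cross_bound h h'
  have h5 : ((t.num * t'.den - t'.num * t.den).natAbs : ℤ) = |t.num * t'.den - t'.num * t.den| :=
    Int.natCast_natAbs _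
  have h6 : (2 * T ^ 2 : ℤ) < (∏ i ∈ Finset.range k, l i : ℕ) := by exact_mod_cast hT
  have h7 : ((∏ i ∈ Finset.range k, l i : ℕ) : ℤ) ≤
      ((t.num * t'.den - t'.num * t.den).natAbs : ℤ) := by exact_mod_cast h3
  omega

/-- Rational numbers of height at most `T` whose reductions modulo many primes lie in small sets:
there are few. -/
theorem card_le_of_red {k : ℕ} {l : ℕ → ℕ} (hl : ∀ i, (l i).Prime) (hinj : Function.Injective l)
    {T d : ℕ} (hT : 2 * T ^ 2 < ∏ i ∈ Finset.range k, l i)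
    (R : (q : ℕ) → Finset (Option (ZMod q))) (hR : ∀ i, (R (l i)).card ≤ d) :
    AtMost (fun t => ht t ≤ T ∧ ∀ i < k, red (l i) t ∈ R (l i)) ((d : ℝ) ^ k) := by
  intro A hA
  have h1 : A.card ≤ (Fintype.piFinset fun i : Fin k => R (l i)).card := by
    refine Finset.card_le_card_of_injOn (fun t => fun i : Fin k => red (l i) t) ?_ ?_
    · intro t ht'
      simp only [Finset.mem_coe, Fintype.mem_piFinset]
      intro i
      exact (hA t ht').2 i i.2
    · intro t ht' t' ht'' h
      refine eq_of_red hl hinj hT (hA t ht').1 (hA t' ht'').1 fun i hi => ?_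
      exact congrFun h ⟨i, hi⟩
  have h2 : (Fintype.piFinset fun i : Fin k => R (l i)).card ≤ d ^ k := by
    rw [Fintype.card_piFinset]
    calc ∏ i : Fin k, (R (l i)).card ≤ ∏ _i : Fin k, d :=
          Finset.prod_le_prod' fun i _ => hR i
      _ = d ^ k := by simp
  exact_mod_cast h1.trans h2

/-- A sequence of primes, one between any two consecutive powers of `2`. -/
theorem exists_primes (s : ℕ) : ∃ l : ℕ → ℕ, (∀ i, (l i).Prime) ∧ Function.Injective l ∧
    (∀ i, s < l i) ∧ (∀ i, 2 ^ i ≤ l i) ∧ ∀ i, l i ≤ 2 ^ (s + i + 1) := by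
  have h : ∀ i : ℕ, ∃ p : ℕ, p.Prime ∧ 2 ^ (s + i) < p ∧ p ≤ 2 ^ (s + i + 1) := by
    intro i
    obtain ⟨p, hp, h1, h2⟩ := Nat.exists_prime_lt_and_le_two_mul (2 ^ (s + i)) (by positivity)
    exact ⟨p, hp, h1, by rw [pow_succ]; omega⟩
  choose l hl h1 h2 using h
  refine ⟨l, hl, ?_, ?_, ?_, h2⟩
  · refine StrictMono.injective (strictMono_nat_of_lt_succ fun i => ?_)
    exact lt_of_le_of_lt (h2 i) (h1 (i + 1))
  · intro i
    have h3 : s < 2 ^ s := Nat.lt_two_pow_self
    have h4 : 2 ^ s ≤ 2 ^ (s + i) := Nat.pow_le_pow_right (by norm_num) (by omega)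
    have := h1 i
    omega
  · intro i
    have h4 : 2 ^ i ≤ 2 ^ (s + i) := Nat.pow_le_pow_right (by norm_num) (by omega)
    have := h1 i
    omega

/-- The products of the first `k` of these primes grow faster than any exponential in `k`. -/
theorem exp_le {l : ℕ → ℕ} (hl : ∀ i, 2 ^ i ≤ l i) (a : ℕ) {δ : ℝ} (hδ : 0 < δ) :
    ∃ C : ℝ, 0 < C ∧ ∀ k : ℕ, (2 : ℝ) ^ (a * k) ≤
      C * ((∏ i ∈ Finset.range k, l i : ℕ) : ℝ) ^ δ := by
  obtain ⟨j, hj⟩ := exists_nat_ge ((a : ℝ) / δ)
  refine ⟨2 ^ (a * j), by positivity, fun k => ?_⟩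
  have hP : ∀ k : ℕ, (1 : ℝ) ≤ ((∏ i ∈ Finset.range k, l i : ℕ) : ℝ) := by
    intro k
    have : 1 ≤ ∏ i ∈ Finset.range k, l i := by
      refine Nat.one_le_iff_ne_zero.2 (Finset.prod_ne_zero_iff.2 fun i _ => ?_)
      have := hl i
      have h2 : 0 < 2 ^ i := by positivity
      omega
    exact_mod_cast this
  induction k with
  | zero => simp; exact one_le_pow₀ (by norm_num)
  | succ k ih =>
    by_cases hk : k < j
    · calc (2 : ℝ) ^ (a * (k + 1)) ≤ 2 ^ (a * j) :=
            pow_le_pow_right₀ (by norm_num) (Nat.mul_le_mul_left _ hk)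
        _ = 2 ^ (a * j) * 1 := (mul_one _).symm
        _ ≤ _ := by
            refine mul_le_mul_of_nonneg_left ?_ (by positivity)
            exact Real.one_le_rpow (hP _) hδ.le
    · have h1 : (2 : ℝ) ^ a ≤ ((l k : ℕ) : ℝ) ^ δ := by
        have h2 : ((2 : ℝ) ^ k) ≤ (l k : ℝ) := by exact_mod_cast hl k
        have h3 : ((2 : ℝ) ^ k) ^ δ ≤ (l k : ℝ) ^ δ :=
          Real.rpow_le_rpow (by positivity) h2 hδ.le
        refine le_trans ?_ h3
        rw [← Real.rpow_natCast, ← Real.rpow_natCast, ← Real.rpow_mul (by norm_num)]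
        refine Real.rpow_le_rpow_of_exponent_le (by norm_num) ?_
        have h4 : (j : ℝ) ≤ k := by exact_mod_cast not_lt.1 hk
        rw [div_le_iff₀ hδ] at hj
        nlinarith
      calc (2 : ℝ) ^ (a * (k + 1)) = 2 ^ (a * k) * 2 ^ a := by rw [mul_add, mul_one, pow_add]
        _ ≤ (2 ^ (a * j) * ((∏ i ∈ Finset.range k, l i : ℕ) : ℝ) ^ δ) * ((l k : ℕ) : ℝ) ^ δ :=
            mul_le_mul ih h1 (by positivity) (by positivity)
        _ = 2 ^ (a * j) * ((∏ i ∈ Finset.range (k + 1), l i : ℕ) : ℝ) ^ δ := by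
            rw [Finset.prod_range_succ, Nat.cast_mul, Real.mul_rpow (by positivity) (by positivity),
              mul_assoc]

end Pool.Agent.TH125.Tor
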