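import Pool.Agent.TH125.Tor.Congruence

/-!
# A union bound over primes with a main exponent
-/

set_option autoImplicit false

namespace Pool.Agent.TH125.Tor

/-- The part of the union over the primes `p ≥ p₀`, with a constant which depends only on the
constants of the hypotheses. -/
theorem large_part (c C : ℕ) {θ ε : ℝ} (hθ : 0 ≤ θ) (hε : 0 < ε) :
    ∃ K : ℝ, 0 ≤ K ∧ ∀ {P : Type} (S : Set P), S.Finite → ∀ (Bad : P → ℕ → Prop) (p₀ : ℕ) (T : ℝ),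
      1 ≤ T →
      (∀ x ∈ S, ∀ p : ℕ, p.Prime → Bad x p → (p : ℝ) ≤ c * (1 + Real.log T) ^ c) →
      (∀ p : ℕ, p.Prime → p₀ ≤ p →
        ({x : P | x ∈ S ∧ Bad x p}.ncard : ℝ) ≤ C * (p : ℝ) ^ C * T ^ (θ + ε / 2)) →
      ({x : P | x ∈ S ∧ ∃ p : ℕ, p.Prime ∧ p₀ ≤ p ∧ Bad x p}.ncard : ℝ) ≤ K * T ^ (θ + ε) := by
  classical
  obtain ⟨C1, hC1, hlog⟩ := log_pow_le (c * (C + 1)) (ε := ε / 2) (by positivity)
  refine ⟨C * (c + 1) ^ (C + 1) * C1, by positivity, ?_⟩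
  intro P S hS Bad p₀ T hT hlarge hC
  have hT0 : 0 < T := by linarith
  have hL : 0 ≤ Real.log T := Real.log_nonneg hT
  set Q : ℕ := ⌊(c : ℝ) * (1 + Real.log T) ^ c⌋₊ with hQ
  have hQle : (Q : ℝ) ≤ c * (1 + Real.log T) ^ c := Nat.floor_le (by positivity)
  have hcover : {x : P | x ∈ S ∧ ∃ p : ℕ, p.Prime ∧ p₀ ≤ p ∧ Bad x p} ⊆
      ⋃ p ∈ (Finset.range (Q + 1)).filter (fun p => p.Prime ∧ p₀ ≤ p),
        {x : P | x ∈ S ∧ Bad x p} := by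
    rintro x ⟨hxS, p, hp, hp0, hbad⟩
    simp only [Set.mem_iUnion]
    refine ⟨p, Finset.mem_filter.2 ⟨Finset.mem_range.2 ?_, hp, hp0⟩, hxS, hbad⟩
    exact Nat.lt_succ_of_le (Nat.le_floor (hlarge x hxS p hp hbad))
  have hfinU : (⋃ p ∈ (Finset.range (Q + 1)).filter (fun p => p.Prime ∧ p₀ ≤ p),
        {x : P | x ∈ S ∧ Bad x p}).Finite :=
    Set.Finite.biUnion (Finset.finite_toSet _) fun p _ => hS.subset fun x hx => hx.1
  have h2 : ({x : P | x ∈ S ∧ ∃ p : ℕ, p.Prime ∧ p₀ ≤ p ∧ Bad x p}.ncard : ℝ) ≤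
      ((⋃ p ∈ (Finset.range (Q + 1)).filter (fun p => p.Prime ∧ p₀ ≤ p),
        {x : P | x ∈ S ∧ Bad x p}).ncard : ℝ) := by
    exact_mod_cast Set.ncard_le_ncard hcover hfinU
  have h3 : ((⋃ p ∈ (Finset.range (Q + 1)).filter (fun p => p.Prime ∧ p₀ ≤ p),
        {x : P | x ∈ S ∧ Bad x p}).ncard : ℝ) ≤
      ∑ p ∈ (Finset.range (Q + 1)).filter (fun p => p.Prime ∧ p₀ ≤ p),
        ({x : P | x ∈ S ∧ Bad x p}.ncard : ℝ) := by
    have := Finset.set_ncard_biUnion_le ((Finset.range (Q + 1)).filter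
      (fun p => p.Prime ∧ p₀ ≤ p)) (fun p => {x : P | x ∈ S ∧ Bad x p})
    exact_mod_cast this
  have h4 : ∑ p ∈ (Finset.range (Q + 1)).filter (fun p => p.Prime ∧ p₀ ≤ p),
        ({x : P | x ∈ S ∧ Bad x p}.ncard : ℝ) ≤
          ((Q : ℝ) + 1) * (C * (Q : ℝ) ^ C * T ^ (θ + ε / 2)) := by
    have h5 : ∀ p ∈ (Finset.range (Q + 1)).filter (fun p => p.Prime ∧ p₀ ≤ p),
        ({x : P | x ∈ S ∧ Bad x p}.ncard : ℝ) ≤ C * (Q : ℝ) ^ C * T ^ (θ + ε / 2) := by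
      intro p hp
      obtain ⟨h6, h7, h8⟩ := Finset.mem_filter.1 hp
      refine (hC p h7 h8).trans ?_
      refine mul_le_mul_of_nonneg_right ?_ (by positivity)
      refine mul_le_mul_of_nonneg_left ?_ (by positivity)
      refine pow_le_pow_left₀ (by positivity) ?_ C
      exact_mod_cast Nat.lt_succ_iff.1 (Finset.mem_range.1 h6)
    refine (Finset.sum_le_card_nsmul _ _ _ h5).trans ?_
    rw [nsmul_eq_mul]
    refine mul_le_mul_of_nonneg_right ?_ (by positivity)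
    have := Finset.card_filter_le (Finset.range (Q + 1)) (fun p => p.Prime ∧ p₀ ≤ p)
    rw [Finset.card_range] at this
    exact_mod_cast this
  have h5 : ((Q : ℝ) + 1) ≤ (c + 1) * (2 + Real.log T) ^ c := by
    have h6 : (1 + Real.log T) ^ c ≤ (2 + Real.log T) ^ c :=
      pow_le_pow_left₀ (by positivity) (by linarith) c
    have h7 : (1 : ℝ) ≤ (2 + Real.log T) ^ c := one_le_pow₀ (by linarith)
    have h8 : (c : ℝ) * (1 + Real.log T) ^ c ≤ c * (2 + Real.log T) ^ c :=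
      mul_le_mul_of_nonneg_left h6 (by positivity)
    linarith
  have h6 : ((Q : ℝ) + 1) * (C * (Q : ℝ) ^ C * T ^ (θ + ε / 2)) ≤
      C * (c + 1) ^ (C + 1) * C1 * T ^ (θ + ε) := by
    have h7 : (Q : ℝ) ^ C ≤ ((Q : ℝ) + 1) ^ C := pow_le_pow_left₀ (by positivity) (by linarith) C
    have h8 : ((Q : ℝ) + 1) ^ (C + 1) ≤ (c + 1) ^ (C + 1) * (C1 * T ^ (ε / 2)) := by
      refine (pow_le_pow_left₀ (by positivity) h5 _).trans ?_
      rw [mul_pow, ← pow_mul]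
      exact mul_le_mul_of_nonneg_left (hlog T hT) (by positivity)
    calc ((Q : ℝ) + 1) * (C * (Q : ℝ) ^ C * T ^ (θ + ε / 2))
        = C * ((Q : ℝ) ^ C * ((Q : ℝ) + 1)) * T ^ (θ + ε / 2) := by ring
      _ ≤ C * (((Q : ℝ) + 1) ^ C * ((Q : ℝ) + 1)) * T ^ (θ + ε / 2) := by gcongr
      _ = C * ((Q : ℝ) + 1) ^ (C + 1) * T ^ (θ + ε / 2) := by rw [pow_succ]
      _ ≤ C * ((c + 1) ^ (C + 1) * (C1 * T ^ (ε / 2))) * T ^ (θ + ε / 2) := by gcongr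
      _ = C * (c + 1) ^ (C + 1) * C1 * (T ^ (ε / 2) * T ^ (θ + ε / 2)) := by ring
      _ = C * (c + 1) ^ (C + 1) * C1 * T ^ (θ + ε) := by
          rw [← Real.rpow_add hT0]
          congr 2
          ring
  linarith

/-- **Union bound with a main exponent.** -/
theorem union_theta {P : Type} (H : P → ℝ) (h1 : ∀ x, 1 ≤ H x)
    (hN : ∀ T : ℝ, {x : P | H x ≤ T}.Finite) (Bad : P → ℕ → Prop) (p₁ : ℕ) {θ : ℝ} (hθ : 0 ≤ θ)
    (hlarge : ∃ c : ℕ, ∀ x, ∀ p : ℕ, p.Prime → Bad x p → (p : ℝ) ≤ c * (1 + Real.log (H x)) ^ c)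
    (hcount : ∀ ε : ℝ, 0 < ε → ∃ p₀ C : ℕ, ∀ p : ℕ, p.Prime → p₀ ≤ p → ∀ T : ℝ, 1 ≤ T →
      ({x : P | H x ≤ T ∧ Bad x p}.ncard : ℝ) ≤ C * (p : ℝ) ^ C * T ^ (θ + ε))
    (heach : ∀ p : ℕ, p.Prime → p₁ ≤ p → ∀ ε : ℝ, 0 < ε → ∃ C : ℝ, ∀ T : ℝ, 1 ≤ T →
      ({x : P | H x ≤ T ∧ Bad x p}.ncard : ℝ) ≤ C * T ^ (θ + ε)) :
    ∀ ε : ℝ, 0 < ε → ∃ C : ℝ, ∀ T : ℝ, 1 ≤ T →
      ({x : P | H x ≤ T ∧ ∃ p : ℕ, p.Prime ∧ p₁ ≤ p ∧ Bad x p}.ncard : ℝ) ≤ C * T ^ (θ + ε) := by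
  classical
  intro ε hε
  obtain ⟨c, hc⟩ := hlarge
  obtain ⟨p₀, C, hC⟩ := hcount (ε / 2) (by positivity)
  obtain ⟨K, hK0, hK⟩ := large_part c C hθ hε
  have hsmall : ∀ p : ℕ, ∃ D : ℝ, 0 ≤ D ∧ (p.Prime → p₁ ≤ p → ∀ T : ℝ, 1 ≤ T →
      ({x : P | H x ≤ T ∧ Bad x p}.ncard : ℝ) ≤ D * T ^ (θ + ε)) := by
    intro p
    by_cases hp : p.Prime ∧ p₁ ≤ p
    · obtain ⟨D, hD⟩ := heach p hp.1 hp.2 ε hε
      refine ⟨max D 0, le_max_right _ _, fun _ _ T hT => (hD T hT).trans ?_⟩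
      exact mul_le_mul_of_nonneg_right (le_max_left _ _) (by positivity)
    · exact ⟨0, le_rfl, fun h h' => absurd ⟨h, h'⟩ hp⟩
  choose D hD0 hD using hsmall
  refine ⟨∑ p ∈ Finset.range p₀, D p + K, fun T hT => ?_⟩
  have hcover : {x : P | H x ≤ T ∧ ∃ p : ℕ, p.Prime ∧ p₁ ≤ p ∧ Bad x p} ⊆
      (⋃ p ∈ (Finset.range p₀).filter (fun p => p.Prime ∧ p₁ ≤ p), {x : P | H x ≤ T ∧ Bad x p}) ∪
        {x : P | H x ≤ T ∧ ∃ p : ℕ, p.Prime ∧ p₀ ≤ p ∧ Bad x p} := by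
    rintro x ⟨hxT, p, hp, hp1, hbad⟩
    by_cases hp0 : p < p₀
    · left
      simp only [Set.mem_iUnion]
      exact ⟨p, Finset.mem_filter.2 ⟨Finset.mem_range.2 hp0, hp, hp1⟩, hxT, hbad⟩
    · exact Or.inr ⟨hxT, p, hp, not_lt.1 hp0, hbad⟩
  have hf1 : (⋃ p ∈ (Finset.range p₀).filter (fun p => p.Prime ∧ p₁ ≤ p),
      {x : P | H x ≤ T ∧ Bad x p}).Finite :=
    Set.Finite.biUnion (Finset.finite_toSet _) fun p _ => (hN T).subset fun x hx => hx.1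
  have hf2 : {x : P | H x ≤ T ∧ ∃ p : ℕ, p.Prime ∧ p₀ ≤ p ∧ Bad x p}.Finite :=
    (hN T).subset fun x hx => hx.1
  have h2 : ({x : P | H x ≤ T ∧ ∃ p : ℕ, p.Prime ∧ p₁ ≤ p ∧ Bad x p}.ncard : ℝ) ≤
      ((⋃ p ∈ (Finset.range p₀).filter (fun p => p.Prime ∧ p₁ ≤ p),
        {x : P | H x ≤ T ∧ Bad x p}).ncard : ℝ) +
      ({x : P | H x ≤ T ∧ ∃ p : ℕ, p.Prime ∧ p₀ ≤ p ∧ Bad x p}.ncard : ℝ) := by
    exact_mod_cast (Set.ncard_le_ncard hcover (hf1.union hf2)).trans (Set.ncard_union_le _ _)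
  have h3 : ((⋃ p ∈ (Finset.range p₀).filter (fun p => p.Prime ∧ p₁ ≤ p),
        {x : P | H x ≤ T ∧ Bad x p}).ncard : ℝ) ≤
      (∑ p ∈ Finset.range p₀, D p) * T ^ (θ + ε) := by
    have h4 : ((⋃ p ∈ (Finset.range p₀).filter (fun p => p.Prime ∧ p₁ ≤ p),
        {x : P | H x ≤ T ∧ Bad x p}).ncard : ℝ) ≤
        ∑ p ∈ (Finset.range p₀).filter (fun p => p.Prime ∧ p₁ ≤ p),
          ({x : P | H x ≤ T ∧ Bad x p}.ncard : ℝ) := by
      have := Finset.set_ncard_biUnion_le ((Finset.range p₀).filter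
        (fun p => p.Prime ∧ p₁ ≤ p)) (fun p => {x : P | H x ≤ T ∧ Bad x p})
      exact_mod_cast this
    refine h4.trans ?_
    rw [Finset.sum_mul]
    refine (Finset.sum_le_sum fun p hp => ?_).trans
      (Finset.sum_le_sum_of_subset_of_nonneg (Finset.filter_subset _ _) fun p _ _ => ?_)
    · obtain ⟨-, h5, h6⟩ := Finset.mem_filter.1 hp
      exact hD p h5 h6 T hT
    · exact mul_nonneg (hD0 p) (by positivity)
  have h4 : ({x : P | H x ≤ T ∧ ∃ p : ℕ, p.Prime ∧ p₀ ≤ p ∧ Bad x p}.ncard : ℝ) ≤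
      K * T ^ (θ + ε) := by
    refine hK {x : P | H x ≤ T} (hN T) Bad p₀ T hT ?_ ?_
    · intro x hx p hp hbad
      refine (hc x p hp hbad).trans ?_
      refine mul_le_mul_of_nonneg_left ?_ (by positivity)
      have h3 : Real.log (H x) ≤ Real.log T := Real.log_le_log (by linarith [h1 x]) hx
      have h4 : 0 ≤ Real.log (H x) := Real.log_nonneg (h1 x)
      exact pow_le_pow_left₀ (by positivity) (by linarith) c
    · intro p hp hp0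
      exact hC p hp hp0 T hT
  calc _ ≤ (∑ p ∈ Finset.range p₀, D p) * T ^ (θ + ε) + K * T ^ (θ + ε) := by linarith
    _ = _ := by ring

end Pool.Agent.TH125.Tor
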