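import Mathlib

/-!
# A union bound over primes
-/

set_option autoImplicit false

namespace Pool.Agent.TH125.Tor

/-- Powers of logarithms are smaller than powers. -/
theorem log_pow_le (m : ℕ) {ε : ℝ} (hε : 0 < ε) :
    ∃ C : ℝ, 0 < C ∧ ∀ T : ℝ, 1 ≤ T → (2 + Real.log T) ^ m ≤ C * T ^ ε := by
  set δ : ℝ := ε / (m + 1) with hδ
  have hδ0 : 0 < δ := by positivity
  refine ⟨(2 + 1 / δ) ^ m, by positivity, fun T hT => ?_⟩
  have hT0 : 0 < T := by linarith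
  have h1 : Real.log T ≤ T ^ δ / δ := Real.log_le_rpow_div hT0.le hδ0
  have h2 : (1 : ℝ) ≤ T ^ δ := Real.one_le_rpow hT hδ0.le
  have h3 : 2 + Real.log T ≤ (2 + 1 / δ) * T ^ δ := by
    have : (2 + 1 / δ) * T ^ δ = 2 * T ^ δ + T ^ δ / δ := by ring
    rw [this]
    linarith
  have h4 : 0 ≤ 2 + Real.log T := by
    have := Real.log_nonneg hT
    linarith
  calc (2 + Real.log T) ^ m ≤ ((2 + 1 / δ) * T ^ δ) ^ m := pow_le_pow_left₀ h4 h3 m
    _ = (2 + 1 / δ) ^ m * (T ^ δ) ^ m := mul_pow _ _ _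
    _ ≤ (2 + 1 / δ) ^ m * T ^ ε := by
        refine mul_le_mul_of_nonneg_left ?_ (by positivity)
        rw [← Real.rpow_natCast, ← Real.rpow_mul hT0.le]
        refine Real.rpow_le_rpow_of_exponent_le hT ?_
        rw [hδ, div_mul_eq_mul_div, div_le_iff₀ (by positivity)]
        nlinarith

/-- **Union bound.** `H` is a height and `Bad x p` a property of points `x` and primes `p`, such
that `p` is at most a power of the logarithm of the height of `x`, the number of points of height at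
most `T` is at most `C p ^ C T ^ ε` for `p ≥ p₀(ε)` and finite for all `p ≥ p₁`. Then there are at
most `C_ε T ^ ε` points of height at most `T` which are bad for some `p ≥ p₁`. -/
theorem union_bound {P : Type*} (H : P → ℝ) (h1 : ∀ x, 1 ≤ H x)
    (hN : ∀ T : ℝ, {x : P | H x ≤ T}.Finite) (Bad : P → ℕ → Prop) (p₁ : ℕ)
    (hlarge : ∃ c : ℕ, ∀ x, ∀ p : ℕ, p.Prime → Bad x p → (p : ℝ) ≤ c * (1 + Real.log (H x)) ^ c)
    (hcount : ∀ ε : ℝ, 0 < ε → ∃ p₀ C : ℕ, ∀ p : ℕ, p.Prime → p₀ ≤ p → ∀ T : ℝ, 1 ≤ T →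
      ({x : P | H x ≤ T ∧ Bad x p}.ncard : ℝ) ≤ C * (p : ℝ) ^ C * T ^ ε)
    (hfin : ∀ p : ℕ, p.Prime → p₁ ≤ p → {x : P | Bad x p}.Finite) :
    ∀ ε : ℝ, 0 < ε → ∃ C : ℝ, ∀ T : ℝ, 1 ≤ T →
      ({x : P | H x ≤ T ∧ ∃ p : ℕ, p.Prime ∧ p₁ ≤ p ∧ Bad x p}.ncard : ℝ) ≤ C * T ^ ε := by
  classical
  intro ε hε
  obtain ⟨c, hc⟩ := hlarge
  obtain ⟨p₀, C, hC⟩ := hcount (ε / 2) (by positivity)
  obtain ⟨C1, hC1, hlog⟩ := log_pow_le (c * (C + 1)) (ε := ε / 2) (by positivity)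
  have hF : (⋃ p ∈ (Finset.range p₀).filter (fun p => p.Prime ∧ p₁ ≤ p),
      {x : P | Bad x p}).Finite := by
    refine Set.Finite.biUnion (Finset.finite_toSet _) fun p hp => ?_
    have := Finset.mem_filter.1 (Finset.mem_coe.1 hp)
    exact hfin p this.2.1 this.2.2
  set F := (⋃ p ∈ (Finset.range p₀).filter (fun p => p.Prime ∧ p₁ ≤ p), {x : P | Bad x p}) with hFd
  refine ⟨F.ncard + C * (c + 1) ^ (C + 1) * C1, fun T hT => ?_⟩
  have hT0 : 0 < T := by linarith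
  have hL : 0 ≤ Real.log T := Real.log_nonneg hT
  set Q : ℕ := ⌊(c : ℝ) * (1 + Real.log T) ^ c⌋₊ with hQ
  have hQle : (Q : ℝ) ≤ c * (1 + Real.log T) ^ c := Nat.floor_le (by positivity)
  have hcover : {x : P | H x ≤ T ∧ ∃ p : ℕ, p.Prime ∧ p₁ ≤ p ∧ Bad x p} ⊆
      F ∪ ⋃ p ∈ (Finset.range (Q + 1)).filter (fun p => p.Prime ∧ p₀ ≤ p),
        {x : P | H x ≤ T ∧ Bad x p} := by
    rintro x ⟨hxT, p, hp, hp1, hbad⟩
    by_cases hp0 : p < p₀
    · left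
      simp only [hFd, Set.mem_iUnion]
      exact ⟨p, Finset.mem_filter.2 ⟨Finset.mem_range.2 hp0, hp, hp1⟩, hbad⟩
    · right
      simp only [Set.mem_iUnion]
      refine ⟨p, Finset.mem_filter.2 ⟨Finset.mem_range.2 ?_, hp, not_lt.1 hp0⟩, hxT, hbad⟩
      refine Nat.lt_succ_of_le (Nat.le_floor ?_)
      refine (hc x p hp hbad).trans ?_
      refine mul_le_mul_of_nonneg_left ?_ (by positivity)
      have h3 : Real.log (H x) ≤ Real.log T := Real.log_le_log (by linarith [h1 x]) hxT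
      have h4 : 0 ≤ Real.log (H x) := Real.log_nonneg (h1 x)
      exact pow_le_pow_left₀ (by positivity) (by linarith) c
  have hfinU : (⋃ p ∈ (Finset.range (Q + 1)).filter (fun p => p.Prime ∧ p₀ ≤ p),
        {x : P | H x ≤ T ∧ Bad x p}).Finite :=
    Set.Finite.biUnion (Finset.finite_toSet _) fun p _ => (hN T).subset fun x hx => hx.1
  have h2 : ({x : P | H x ≤ T ∧ ∃ p : ℕ, p.Prime ∧ p₁ ≤ p ∧ Bad x p}.ncard : ℝ) ≤
      F.ncard + ((⋃ p ∈ (Finset.range (Q + 1)).filter (fun p => p.Prime ∧ p₀ ≤ p),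
        {x : P | H x ≤ T ∧ Bad x p}).ncard : ℝ) := by
    exact_mod_cast (Set.ncard_le_ncard hcover (hF.union hfinU)).trans (Set.ncard_union_le _ _)
  have h3 : ((⋃ p ∈ (Finset.range (Q + 1)).filter (fun p => p.Prime ∧ p₀ ≤ p),
        {x : P | H x ≤ T ∧ Bad x p}).ncard : ℝ) ≤
      ∑ p ∈ (Finset.range (Q + 1)).filter (fun p => p.Prime ∧ p₀ ≤ p),
        ({x : P | H x ≤ T ∧ Bad x p}.ncard : ℝ) := by
    have := Finset.set_ncard_biUnion_le ((Finset.range (Q + 1)).filter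
      (fun p => p.Prime ∧ p₀ ≤ p)) (fun p => {x : P | H x ≤ T ∧ Bad x p})
    exact_mod_cast this
  have h4 : ∑ p ∈ (Finset.range (Q + 1)).filter (fun p => p.Prime ∧ p₀ ≤ p),
        ({x : P | H x ≤ T ∧ Bad x p}.ncard : ℝ) ≤ ((Q : ℝ) + 1) * (C * (Q : ℝ) ^ C * T ^ (ε / 2)) := by
    have h5 : ∀ p ∈ (Finset.range (Q + 1)).filter (fun p => p.Prime ∧ p₀ ≤ p),
        ({x : P | H x ≤ T ∧ Bad x p}.ncard : ℝ) ≤ C * (Q : ℝ) ^ C * T ^ (ε / 2) := by
      intro p hp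
      obtain ⟨h6, h7, h8⟩ := Finset.mem_filter.1 hp
      refine (hC p h7 h8 T hT).trans ?_
      refine mul_le_mul_of_nonneg_right ?_ (by positivity)
      refine mul_le_mul_of_nonneg_left ?_ (by positivity)
      refine pow_le_pow_left₀ (by positivity) ?_ C
      exact_mod_cast Nat.lt_succ_iff.1 (Finset.mem_range.1 h6)
    refine (Finset.sum_le_card_nsmul _ _ _ h5).trans ?_
    rw [nsmul_eq_mul]
    refine mul_le_mul_of_nonneg_right ?_ (by positivity)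
    have := Finset.card_filter_le (Finset.range (Q + 1)) (fun p => p.Prime ∧ p₀ ≤ p)
    rw [Finset.card_range] at this
    exact_mod_cast this
  have h5 : ((Q : ℝ) + 1) ≤ (c + 1) * (2 + Real.log T) ^ c := by
    have h6 : (1 + Real.log T) ^ c ≤ (2 + Real.log T) ^ c :=
      pow_le_pow_left₀ (by positivity) (by linarith) c
    have h7 : (1 : ℝ) ≤ (2 + Real.log T) ^ c := one_le_pow₀ (by linarith)
    have h8 : (c : ℝ) * (1 + Real.log T) ^ c ≤ c * (2 + Real.log T) ^ c :=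
      mul_le_mul_of_nonneg_left h6 (by positivity)
    linarith
  have h6 : ((Q : ℝ) + 1) * (C * (Q : ℝ) ^ C * T ^ (ε / 2)) ≤
      C * (c + 1) ^ (C + 1) * C1 * T ^ ε := by
    have h7 : (Q : ℝ) ^ C ≤ ((Q : ℝ) + 1) ^ C := pow_le_pow_left₀ (by positivity) (by linarith) C
    have h8 : ((Q : ℝ) + 1) ^ (C + 1) ≤ (c + 1) ^ (C + 1) * (C1 * T ^ (ε / 2)) := by
      refine (pow_le_pow_left₀ (by positivity) h5 _).trans ?_
      rw [mul_pow, ← pow_mul]
      exact mul_le_mul_of_nonneg_left (hlog T hT) (by positivity)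
    calc ((Q : ℝ) + 1) * (C * (Q : ℝ) ^ C * T ^ (ε / 2))
        = C * ((Q : ℝ) ^ C * ((Q : ℝ) + 1)) * T ^ (ε / 2) := by ring
      _ ≤ C * (((Q : ℝ) + 1) ^ C * ((Q : ℝ) + 1)) * T ^ (ε / 2) := by gcongr
      _ = C * ((Q : ℝ) + 1) ^ (C + 1) * T ^ (ε / 2) := by rw [pow_succ]
      _ ≤ C * ((c + 1) ^ (C + 1) * (C1 * T ^ (ε / 2))) * T ^ (ε / 2) := by gcongr
      _ = C * (c + 1) ^ (C + 1) * C1 * (T ^ (ε / 2) * T ^ (ε / 2)) := by ring
      _ = C * (c + 1) ^ (C + 1) * C1 * T ^ ε := by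
          rw [← Real.rpow_add hT0]
          congr 2
          ring
  have hTε : (1 : ℝ) ≤ T ^ ε := Real.one_le_rpow hT hε.le
  have h7 : (F.ncard : ℝ) ≤ F.ncard * T ^ ε := by
    have : (0 : ℝ) ≤ F.ncard := by positivity
    nlinarith
  calc ({x : P | H x ≤ T ∧ ∃ p : ℕ, p.Prime ∧ p₁ ≤ p ∧ Bad x p}.ncard : ℝ)
      ≤ F.ncard * T ^ ε + C * (c + 1) ^ (C + 1) * C1 * T ^ ε := by linarith
    _ = _ := by ring

end Pool.Agent.TH125.Tor
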